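import Pool.Agent.K1H81.DC.Defs
import Pool.Agent.K1H81.HX.Defs

/-!
# The Sato–Tate sequences of double covers of even dimension: definitions
-/

set_option autoImplicit false

namespace Pool.Agent.K1H81.DE

open Finset MeasureTheory
open Pool.Agent.Y722.HS (Mon)
open Pool.Agent.K1H81.DC (trace GoodReduction)
open Pool.Agent.K1H81.HX (emp)

open Classical in
/-- The primes `p < T` in `P` at which the double cover has good reduction. -/
noncomputable def goodPrimes {n d : ℕ} (P : Set ℕ) (c : Mon n d → ℤ) (T : ℕ) : Finset ℕ :=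
  (range T).filter fun p => p ∈ P ∧ GoodReduction c p

/-- The measure `ν_T` on `ℝ^r`: the mean of the unit masses at the vectors
`(tr x_p, tr x_p², …, tr x_p^r)`, for the primes `p < T` in `P` of good reduction. -/
noncomputable def empirical (r : ℕ) {m d : ℕ} (P : Set ℕ) (c : Mon (2 * m) d → ℤ) (T : ℕ) :
    FiniteMeasure (Fin r → ℝ) :=
  emp (goodPrimes P c T) fun p k => trace c p ((k : ℕ) + 1)

end Pool.Agent.K1H81.DE
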