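import Pool.Agent.K1H81.DC.Fin
import Pool.Agent.K1H81.HX.Law
import Pool.Agent.K1H81.DE.Defs

/-!
# The law of the traces of a random double cover over a large prime field is close to the limit law
-/

set_option autoImplicit false
set_option linter.unusedSectionVars false

namespace Pool.Agent.K1H81.DE

open Finset hiding val
open MeasureTheory ProbabilityTheory Filter Topology
open scoped NNReal ENNReal
open Pool.Agent.Y722.HS Pool.Agent.X280.HG Pool.Agent.X280.BP Pool.Agent.X280.UC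
open Pool.Agent.K1H81.HV (limitLaw mean WD WD_total PF DD ev card_PF_div mean_limit)
open Pool.Agent.K1H81.DC
open Pool.Agent.K1H81.HX (lin eval_lin integrable_exp integrable_lin_pow EM_emp llaw emp isProb_emp
  integrable_emp weak_of_charfun charfun_conv)

theorem qp : S_QP := Pool.Agent.K1H1.DC.Qp.t

theorem mv : S_MV := t_MV Pool.Agent.K1H37.DC.t Pool.Agent.K1H1.DC.Qp.t Pool.Agent.K1H33.DC.t
  Pool.Agent.K1H20.DC.t

/-- The trace and its main part, with a uniform bound for the zero form. -/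
theorem near2 (m d r : ℕ) (hm : 1 ≤ m) : ∃ C : ℝ, 0 ≤ C ∧ ∀ (p : ℕ) [Fact p.Prime], p ≠ 2 →
    ∀ k ∈ Icc 1 r, ∀ c : Mon (2 * m) d → ZMod p,
      (c ≠ 0 → |tq m d p k c - tm m d p k c| ≤ C / p) ∧
      |tq m d p k c - tm m d p k c| ≤ 2 ∧ (c = 0 → |tm m d p k c| ≤ 2) := by
  classical
  obtain ⟨C, hC0, hC⟩ := t_NEAR qp Pool.Agent.K1H99.DC.t_ZC m d r hm
  refine ⟨C, hC0, fun p hpf hp2 k hk c => ?_⟩
  have h0 := hC p hp2 k hk c
  rw [Finset.mem_Icc] at hk
  have hpr : (2 : ℝ) ≤ p := by exact_mod_cast hpf.out.two_le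
  have hp0 : (0 : ℝ) < p := by linarith
  have hD : ((p : ℝ) ^ k) ^ m > 0 := by positivity
  have hmu : |muq p m k| ≤ 2 := by
    have h1 := muq_asy (p := p) m k hm hk.1
    have h2 : (2 : ℝ) / p ≤ 1 := by rw [div_le_one hp0]; exact hpr
    have h3 : |HV.ev2 k| ≤ 1 := HV.ev2_abs k
    have h4 : |muq p m k| ≤ |muq p m k - HV.ev2 k| + |HV.ev2 k| := by
      have := abs_add_le (muq p m k - HV.ev2 k) (HV.ev2 k)
      rwa [sub_add_cancel] at this
    linarith
  have hZ : 0 ≤ ∑ j ∈ k.divisors with Even (k / j),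
      (((DD p (2 * m) j).filter fun v => ev c v = 0).card : ℝ) :=
    Finset.sum_nonneg fun j _ => Nat.cast_nonneg _
  have htriv : (∑ j ∈ k.divisors with Even (k / j),
      (((DD p (2 * m) j).filter fun v => ev c v = 0).card : ℝ)) / ((p : ℝ) ^ k) ^ m ≤ 2 := by
    refine le_trans ?_ (le_trans (le_abs_self _) hmu)
    unfold muq
    refine div_le_div_of_nonneg_right (Finset.sum_le_sum fun j _ => ?_) hD.le
    exact_mod_cast Finset.card_filter_le _ _
  refine ⟨fun hc => ?_, ?_, fun hc => ?_⟩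
  · have h1 := h0.1
    rw [if_neg hc, mul_one_div] at h1
    exact h1
  · rw [tq_sub_tm hp2 qp m d k hk.1 c, neg_div, abs_neg, abs_of_nonneg (div_nonneg hZ hD.le)]
    exact htriv
  · have h1 : tm m d p k c = muq p m k := by
      unfold tm muq
      have h2 : ∑ j ∈ k.divisors with Odd (k / j), ∑ v ∈ DD p (2 * m) j, qc p j (ev c v) = 0 := by
        refine Finset.sum_eq_zero fun j _ => Finset.sum_eq_zero fun v _ => ?_
        have h3 : ev c v = 0 := by
          rw [hc]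
          have h4 := HV.ev_add (0 : Mon (2 * m) d → ZMod p) 0 v
          rw [add_zero] at h4
          exact left_eq_add.1 h4
        rw [h3]
        unfold qc
        rw [if_pos rfl]
      rw [h2, zero_add]
    rw [h1]
    exact hmu

/-- **The mean values of a polynomial in the traces.** -/
theorem mvq {r : ℕ} (D : ℕ) (φ : MvPolynomial (Fin r) ℝ) (hD : WD D φ) : ∃ G : ℝ, 0 ≤ G ∧
    ∀ (m d : ℕ) (C : ℝ), 1 ≤ m → 2 * D ≤ d + 1 → 0 ≤ C →
    (∀ (p : ℕ) [Fact p.Prime], p ≠ 2 → ∀ k ∈ Icc 1 r, ∀ c : Mon (2 * m) d → ZMod p,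
      (c ≠ 0 → |tq m d p k c - tm m d p k c| ≤ C / p) ∧
      |tq m d p k c - tm m d p k c| ≤ 2 ∧ (c = 0 → |tm m d p k c| ≤ 2)) →
    ∀ (p : ℕ) [Fact p.Prime] (n : ℕ), p ≠ 2 → 1 ≤ n → n * C ≤ p → n ≤ p →
    |EM p (fun c : Mon (2 * m) d → ZMod p =>
      MvPolynomial.eval (fun i : Fin r => tq m d p ((i : ℕ) + 1) c) φ) - mean φ| ≤ G / n := by
  classical
  obtain ⟨⟨Ψ, hΨ, hpert⟩, -⟩ := Pool.Agent.K1H3.DC.t_PERT r D φ hD 2 (by norm_num)
  obtain ⟨C1, hC10, hC1⟩ := mv r D φ hD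
  obtain ⟨E, hE0, hE⟩ := mv r (2 * D) Ψ hΨ
  have hb := bd_nonneg Ψ (B := 2) (by norm_num)
  have ha := abs_nonneg (mean Ψ)
  refine ⟨C1 + (|mean Ψ| + E + bd Ψ 2), by positivity, ?_⟩
  intro m d C hm hd hC0 hnear p hpf n hp2 hn hnC hnp
  have hp1 : (1 : ℝ) ≤ p := by exact_mod_cast hpf.out.one_lt.le
  have hp0 : (0 : ℝ) < p := by linarith
  have hn0 : (0 : ℝ) < n := by exact_mod_cast hn
  have hn1 : (1 : ℝ) ≤ n := by exact_mod_cast hn
  have hnp' : (n : ℝ) ≤ p := by exact_mod_cast hnp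
  have hmem : ∀ i : Fin r, (i : ℕ) + 1 ∈ Icc 1 r := fun i =>
    Finset.mem_Icc.2 ⟨by omega, by have := i.2; omega⟩
  have hX : ∀ c : Mon (2 * m) d → ZMod p,
      |MvPolynomial.eval (fun i : Fin r => tq m d p ((i : ℕ) + 1) c) φ -
        MvPolynomial.eval (fun i : Fin r => tm m d p ((i : ℕ) + 1) c) φ| ≤
      1 / (n : ℝ) * MvPolynomial.eval (fun i : Fin r => tm m d p ((i : ℕ) + 1) c) Ψ +
      bd Ψ 2 * (if c = 0 then 1 else 0) := by
    intro c
    by_cases hc : c = 0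
    · have h1 := hpert (fun i : Fin r => tq m d p ((i : ℕ) + 1) c)
        (fun i : Fin r => tm m d p ((i : ℕ) + 1) c) 1 zero_le_one le_rfl
        fun i => by rw [mul_one]; exact (hnear p hp2 _ (hmem i) c).2.1
      refine h1.trans ?_
      rw [if_pos hc, one_mul, mul_one]
      have h2 := abs_eval_le Ψ 2 (fun i : Fin r => tm m d p ((i : ℕ) + 1) c) fun i =>
        (hnear p hp2 _ (hmem i) c).2.2 hc
      obtain ⟨z, hz⟩ : ∃ z, MvPolynomial.eval (fun i : Fin r => tm m d p ((i : ℕ) + 1) c) Ψ = z :=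
        ⟨_, rfl⟩
      rw [hz] at h2 ⊢
      have h3 : 0 < 1 / (n : ℝ) := by positivity
      have h4 : 1 / (n : ℝ) ≤ 1 := by rw [div_le_one hn0]; exact hn1
      have h5 : (1 - 1 / (n : ℝ)) * z ≤ bd Ψ 2 := by
        calc (1 - 1 / (n : ℝ)) * z ≤ (1 - 1 / (n : ℝ)) * |z| :=
              mul_le_mul_of_nonneg_left (le_abs_self z) (by linarith)
          _ ≤ 1 * |z| := mul_le_mul_of_nonneg_right (by linarith) (abs_nonneg _)
          _ ≤ _ := by rw [one_mul]; exact h2
      linarith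
    · rw [if_neg hc, mul_zero, add_zero]
      refine hpert _ _ (1 / (n : ℝ)) (by positivity) (by rw [div_le_one hn0]; exact hn1) fun i => ?_
      refine ((hnear p hp2 _ (hmem i) c).1 hc).trans ?_
      rw [mul_one_div, div_le_div_iff₀ hp0 hn0]
      calc C * n = n * C := mul_comm _ _
        _ ≤ p := hnC
        _ ≤ 2 * p := by linarith
  have h1 := hC1 m d hm (by omega) p hp2
  have h2 := hE m d hm hd p hp2
  have h3 : |EM p (fun c : Mon (2 * m) d → ZMod p =>
      MvPolynomial.eval (fun i : Fin r => tq m d p ((i : ℕ) + 1) c) φ) -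
      EM p (fun c : Mon (2 * m) d → ZMod p =>
      MvPolynomial.eval (fun i : Fin r => tm m d p ((i : ℕ) + 1) c) φ)| ≤
      (|mean Ψ| + E + bd Ψ 2) / n := by
    rw [← EM_sub']
    refine (abs_EM_le_EM p _ _ hX).trans ?_
    rw [EM_add', EM_mul', EM_mul']
    have h4 : EM p (fun c : Mon (2 * m) d → ZMod p => if c = 0 then (1 : ℝ) else 0) ≤ 1 / n := by
      have h5 := EM_zero m d p
      refine le_trans (by convert h5) ?_
      exact one_div_le_one_div_of_le hn0 hnp'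
    have h6 := (abs_le.mp h2).2
    have h7 : E / p ≤ E := div_le_self hE0 hp1
    have h8 := le_abs_self (mean Ψ)
    obtain ⟨y, hy⟩ : ∃ y, EM p (fun c : Mon (2 * m) d → ZMod p =>
        MvPolynomial.eval (fun i : Fin r => tm m d p ((i : ℕ) + 1) c) Ψ) = y := ⟨_, rfl⟩
    rw [hy] at h6 ⊢
    have h9 : y ≤ |mean Ψ| + E := by linarith
    calc 1 / (n : ℝ) * y + bd Ψ 2 *
          EM p (fun c : Mon (2 * m) d → ZMod p => if c = 0 then (1 : ℝ) else 0)
        ≤ 1 / (n : ℝ) * (|mean Ψ| + E) + bd Ψ 2 * (1 / n) := by gcongr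
      _ = _ := by ring
  have h4 : C1 / p ≤ C1 / n := by gcongr
  rw [add_div]
  have h5 := (abs_sub_le _ _ _).trans (add_le_add h3 h1)
  linarith

section
variable {r : ℕ}

/-- The vector of the traces. -/
noncomputable def tv (r m d p : ℕ) [Fact p.Prime] (c : Mon (2 * m) d → ZMod p) : Fin r → ℝ :=
  fun k => tq m d p ((k : ℕ) + 1) c

theorem univ_ne {m d p : ℕ} [Fact p.Prime] :
    (univ : Finset (Mon (2 * m) d → ZMod p)).Nonempty := ⟨0, Finset.mem_univ _⟩

/-- The law of the vector of the traces. -/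
noncomputable def tlaw (r m d p : ℕ) [Fact p.Prime] : ProbabilityMeasure (Fin r → ℝ) :=
  ⟨(emp univ (tv r m d p) : Measure (Fin r → ℝ)), isProb_emp univ_ne _⟩

/-- **The laws of the traces converge weakly.** -/
theorem conv (m d p : ℕ → ℕ) [hp : ∀ n, Fact (p n).Prime] (hm : ∀ n, 1 ≤ m n)
    (hd : Tendsto d atTop atTop) (C : ℕ → ℝ) (hC0 : ∀ n, 0 ≤ C n)
    (hnear : ∀ n, ∀ (p : ℕ) [Fact p.Prime], p ≠ 2 → ∀ k ∈ Icc 1 r,
      ∀ c : Mon (2 * m n) (d n) → ZMod p,
      (c ≠ 0 → |tq (m n) (d n) p k c - tm (m n) (d n) p k c| ≤ C n / p) ∧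
      |tq (m n) (d n) p k c - tm (m n) (d n) p k c| ≤ 2 ∧ (c = 0 → |tm (m n) (d n) p k c| ≤ 2))
    (h2 : ∀ n, p n ≠ 2) (hpC : ∀ n, ((n + 1 : ℕ) : ℝ) * C n ≤ p n) (hpn : ∀ n, n + 1 ≤ p n) :
    Tendsto (fun n => tlaw r (m n) (d n) (p n)) atTop (𝓝 (llaw r)) := by
  refine weak_of_charfun _ _ fun u => ?_
  have hprob : ∀ n, IsProbabilityMeasure (tlaw r (m n) (d n) (p n) : Measure (Fin r → ℝ)) :=
    fun n => inferInstance
  refine charfun_conv (fun n => (tlaw r (m n) (d n) (p n) : Measure (Fin r → ℝ)))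
    (llaw r : Measure (Fin r → ℝ)) (fun x => ∑ k, u k * x k) (by fun_prop)
    (fun n j => integrable_emp _ _ _) (fun j => integrable_lin_pow u j) (integrable_exp u 2) ?_
    fun j => ?_
  · have := integrable_exp u (-2)
    refine this.congr (Eventually.of_forall fun z => ?_)
    dsimp only
    congr 1
    ring
  · have hD := (WD_total (lin u)).pow j
    obtain ⟨G, hG0, hG⟩ := mvq _ (lin u ^ j) hD
    have e1 : ∫ x, (∑ k, u k * x k) ^ j ∂(llaw r : Measure (Fin r → ℝ)) = mean (lin u ^ j) := by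
      rw [← mean_limit]
      refine integral_congr_ae (Eventually.of_forall fun z => ?_)
      dsimp only
      rw [map_pow, eval_lin]
    have e2 : ∀ n, ∫ x, (∑ k, u k * x k) ^ j ∂(tlaw r (m n) (d n) (p n) : Measure (Fin r → ℝ)) =
        EM (p n) (fun c : Mon (2 * m n) (d n) → ZMod (p n) =>
          MvPolynomial.eval (fun i : Fin r => tq (m n) (d n) (p n) ((i : ℕ) + 1) c)
            (lin u ^ j)) := by
      intro n
      have h1 := EM_emp (p n) (tv r (m n) (d n) (p n)) (fun x => (∑ k, u k * x k) ^ j)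
      refine h1.trans ?_
      congr 1
      funext c
      rw [map_pow, eval_lin]
      rfl
    rw [e1]
    simp only [e2]
    have h3 : Tendsto (fun n : ℕ => G / ((n + 1 : ℕ) : ℝ)) atTop (𝓝 0) :=
      tendsto_const_nhds.div_atTop (tendsto_natCast_atTop_atTop.comp (tendsto_add_atTop_nat 1))
    rw [tendsto_iff_norm_sub_tendsto_zero]
    refine squeeze_zero' (Eventually.of_forall fun n => norm_nonneg _) ?_ h3
    filter_upwards [hd.eventually_ge_atTop
      (2 * (j * (lin u).weightedTotalDegree fun i : Fin r => (i : ℕ) + 1))] with n hn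
    exact hG (m n) (d n) (C n) (hm n) (by omega) (hC0 n) (hnear n) (p n) (n + 1) (h2 n)
      (by omega) (hpC n) (hpn n)

/-- **The mean values of a bounded continuous function of the traces.** -/
theorem unif (f : BoundedContinuousFunction (Fin r → ℝ) ℝ) {ε : ℝ} (hε : 0 < ε) : ∃ N : ℕ,
    ∀ (m d : ℕ), 1 ≤ m → N ≤ d → ∃ N' : ℕ, ∀ (p : ℕ) [Fact p.Prime], N' ≤ p →
      |EM p (fun c => f (tv r m d p c)) - ∫ x, f x ∂(limitLaw r)| ≤ ε := by
  by_contra hcon
  push Not at hcon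
  choose m d hm hd hcon using hcon
  choose C hC0 hC using fun n => near2 (m n) (d n) r (hm n)
  choose p hp hpn hlt using fun n => hcon n (n + 3 + ⌈((n + 1 : ℕ) : ℝ) * C n⌉₊)
  have h1 := conv (r := r) m d p hm (tendsto_atTop_mono hd tendsto_id) C hC0 hC
    (fun n => by have := hpn n; omega)
    (fun n => by
      have h2 := hpn n
      refine (Nat.le_ceil _).trans ?_
      exact_mod_cast (by omega : ⌈((n + 1 : ℕ) : ℝ) * C n⌉₊ ≤ p n))
    (fun n => by have := hpn n; omega)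
  rw [ProbabilityMeasure.tendsto_iff_forall_integral_tendsto] at h1
  have h2 := h1 f
  rw [Metric.tendsto_atTop] at h2
  obtain ⟨n0, h3⟩ := h2 ε hε
  have h4 := h3 n0 le_rfl
  have h5 := EM_emp (p n0) (tv r (m n0) (d n0) (p n0)) (fun x => f x)
  have h6 := hlt n0
  rw [← h5] at h6
  rw [Real.dist_eq] at h4
  exact lt_irrefl _ (h6.trans h4)

end

end Pool.Agent.K1H81.DE
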