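import Pool.Agent.K1H81.DE.Law
import Pool.Agent.K1H81.HX.Fin

/-!
# Equidistribution for almost all double covers: the proof
-/

set_option autoImplicit false
set_option linter.unusedSectionVars false

namespace Pool.Agent.K1H81.DE

open Finset hiding val
open MeasureTheory ProbabilityTheory Filter Topology
open scoped NNReal ENNReal BoundedContinuousFunction
open Pool.Agent.Y722.HS Pool.Agent.X280.HG Pool.Agent.X280.BP Pool.Agent.X280.UC
open Pool.Agent.K1H81.HV (limitLaw EM_bad)
open Pool.Agent.K1H81.DC (trace GoodReduction)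
open Pool.Agent.Y722.ST (Dat avg avg_eq)
open Pool.Agent.K1H81.HW (Good1 good_iff bad1 markov lim_sqrt)
open Pool.Agent.K1H81.HX (ManyPrimes emp integral_emp NP sum_small bdd limitMeasure nbhd avg_abs)

/-- Good reduction of the double cover modulo `p`. -/
def Good2 {n d : ℕ} (p : ℕ) (c : Mon n d → ZMod p) : Prop := p ≠ 2 ∧ Good1 p c

theorem good2_iff {n d : ℕ} (c : Mon n d → ℤ) (p : ℕ) : GoodReduction c p ↔ Good2 p (red p c) :=
  and_congr_right fun _ => good_iff c p

theorem bad2 {n d p : ℕ} [Fact p.Prime] (hp2 : p ≠ 2) (hd : 1 ≤ d) (c : Mon n d → ZMod p)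
    (h : ¬ Good2 p c) : IsBad p c := bad1 hd p c fun h1 => h ⟨hp2, h1⟩

section
variable {r m d : ℕ}

open Classical in
/-- The centred function at the primes of good reduction in `P`. -/
noncomputable def AA (f : (Fin r → ℝ) → ℝ) (I : ℝ) (P : Set ℕ) (p : ℕ)
    (c : Mon (2 * m) d → ZMod p) : ℝ :=
  if h : p.Prime then
    haveI : Fact p.Prime := ⟨h⟩
    if p ∈ P ∧ Good2 p c then f (tv r m d p c) - I else 0
  else 0

open Classical in
/-- The indicator of the primes of bad reduction in `P`. -/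
noncomputable def BI (P : Set ℕ) (p : ℕ) (c : Mon (2 * m) d → ZMod p) : ℝ :=
  if p ∈ P ∧ ¬ Good2 p c then 1 else 0

theorem avg_BI (hd : 1 ≤ d) (P : Set ℕ) (p : ℕ) [hp : Fact p.Prime] (hp2 : p ≠ 2) :
    |avg (BI (m := m) (d := d) P) p| ≤ ((Delta (2 * m) d).totalDegree + d : ℝ) / p := by
  classical
  rw [avg_eq]
  refine (abs_EM_le_EM p _ (fun c => if IsBad p c then (1 : ℝ) else 0) fun c => ?_).trans
    (EM_bad (2 * m) d hd p)
  unfold BI
  split_ifs with h1 h2 h2
  · rw [abs_one]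
  · exact absurd (bad2 hp2 hd c h1.2) h2
  · rw [abs_zero]
    norm_num
  · rw [abs_zero]

theorem avg_AA (hd : 1 ≤ d) (f : (Fin r → ℝ) → ℝ) (I F ε : ℝ) (hF : ∀ x, |f x - I| ≤ F)
    (P : Set ℕ) (p : ℕ) [hp : Fact p.Prime] (hp2 : p ≠ 2)
    (h : |EM p (fun c => f (tv r m d p c)) - I| ≤ ε) :
    |avg (AA (m := m) (d := d) f I P) p| ≤
      ε + F * (((Delta (2 * m) d).totalDegree + d : ℝ) / p) := by
  classical
  have hF0 : 0 ≤ F := (abs_nonneg _).trans (hF 0)
  have hε0 : 0 ≤ ε := (abs_nonneg _).trans h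
  rw [avg_eq]
  have hbad := EM_bad (2 * m) d hd p
  by_cases hP : p ∈ P
  · have e : (fun c : Mon (2 * m) d → ZMod p => AA (m := m) (d := d) f I P p c) =
        fun c => (f (tv r m d p c) + (-I)) + (-1) * (BI P p c * (f (tv r m d p c) - I)) := by
      funext c
      unfold AA BI
      rw [dif_pos hp.out]
      by_cases hg : Good2 p c
      · simp only [hP, hg, and_self, if_true, not_true, and_false, if_false]
        ring
      · simp only [hP, hg, and_false, if_false, not_false_iff, and_self, if_true]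
        ring
    rw [e, EM_add', EM_add', EM_const', EM_mul']
    have h1 : |EM p (fun c => BI P p c * (f (tv r m d p c) - I))| ≤
        F * (((Delta (2 * m) d).totalDegree + d : ℝ) / p) := by
      refine (abs_EM_le_EM p _ (fun c => F * (if IsBad p c then (1 : ℝ) else 0)) fun c => ?_).trans ?_
      · rw [abs_mul]
        unfold BI
        split_ifs with h1 h2 h2
        · rw [abs_one, one_mul, mul_one]
          exact hF _
        · exact absurd (bad2 hp2 hd c h1.2) h2
        · rw [abs_zero, zero_mul, mul_one]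
          exact hF0
        · rw [abs_zero, zero_mul, mul_zero]
      · rw [EM_mul']
        exact mul_le_mul_of_nonneg_left hbad hF0
    have h2 : |EM p (fun c => f (tv r m d p c)) + -I| ≤ ε := h
    have h3 := abs_add_le (EM p (fun c => f (tv r m d p c)) + -I)
      (-1 * EM p (fun c => BI P p c * (f (tv r m d p c) - I)))
    rw [abs_mul, abs_neg, abs_one, one_mul] at h3
    linarith
  · have e : (fun c : Mon (2 * m) d → ZMod p => AA (m := m) (d := d) f I P p c) =
        fun _ => 0 := by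
      funext c
      unfold AA
      rw [dif_pos hp.out, if_neg (fun h => hP h.1)]
    rw [e, EM_const', abs_zero]
    positivity

/-- The two functions: the centred function, and the indicator of bad reduction. -/
noncomputable def XX (f : (Fin r → ℝ) → ℝ) (I : ℝ) (P : Set ℕ) (b : Bool) (p : ℕ)
    (c : Mon (2 * m) d → ZMod p) : ℝ := bif b then AA f I P p c else BI P p c

theorem XX_abs (f : (Fin r → ℝ) → ℝ) (I F : ℝ) (hF1 : 1 ≤ F) (hF : ∀ x, |f x - I| ≤ F) (P : Set ℕ)
    (b : Bool) (p : ℕ) (c : Mon (2 * m) d → ZMod p) : |XX f I P b p c| ≤ F := by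
  unfold XX
  cases b
  · simp only [cond_false]
    unfold BI
    split_ifs
    · rwa [abs_one]
    · rw [abs_zero]
      linarith
  · simp only [cond_true]
    unfold AA
    split_ifs
    · exact hF _
    · rw [abs_zero]
      linarith
    · rw [abs_zero]
      linarith

theorem sum_AA (he : Even d) (f : (Fin r → ℝ) → ℝ) (I : ℝ) (P : Set ℕ) (c : Mon (2 * m) d → ℤ) (T : ℕ) :
    ∑ p ∈ (range T).filter Nat.Prime, AA f I P p (red p c) =
      ∑ p ∈ goodPrimes P c T, (f (fun k => trace c p ((k : ℕ) + 1)) - I) := by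
  classical
  unfold goodPrimes
  rw [Finset.sum_filter, Finset.sum_filter]
  refine Finset.sum_congr rfl fun p _ => ?_
  by_cases hp : p.Prime
  · haveI := Fact.mk hp
    rw [if_pos hp]
    unfold AA
    rw [dif_pos hp]
    by_cases h : p ∈ P ∧ GoodReduction c p
    · have e : (fun k : Fin r => trace c p ((k : ℕ) + 1)) = tv r m d p (red p c) := by
        funext k
        exact Pool.Agent.K1H50.DC.t m d he c p _ h.2.1 (Nat.succ_pos _)
      rw [e, if_pos h, if_pos ⟨h.1, (good2_iff c p).1 h.2⟩]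
    · rw [if_neg h, if_neg fun h2 => h ⟨h2.1, (good2_iff c p).2 h2.2⟩]
  · rw [if_neg hp, if_neg fun h => hp h.2.2.1]

theorem sum_BI (P : Set ℕ) (c : Mon (2 * m) d → ℤ) (T : ℕ) :
    ∑ p ∈ (range T).filter Nat.Prime, BI P p (red p c) = NP P T - (goodPrimes P c T).card := by
  classical
  have h1 : (((range T).filter fun p => p.Prime ∧ p ∈ P).card : ℝ) =
      ∑ p ∈ range T, if p.Prime ∧ p ∈ P then (1 : ℝ) else 0 := by
    rw [← Finset.sum_filter, Finset.sum_const, nsmul_eq_mul, mul_one]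
  have h2 : ((goodPrimes P c T).card : ℝ) =
      ∑ p ∈ range T, if p ∈ P ∧ GoodReduction c p then (1 : ℝ) else 0 := by
    unfold goodPrimes
    rw [← Finset.sum_filter, Finset.sum_const, nsmul_eq_mul, mul_one]
  unfold NP
  rw [h1, h2, ← Finset.sum_sub_distrib, Finset.sum_filter]
  refine Finset.sum_congr rfl fun p _ => ?_
  unfold BI
  have hg := good2_iff c p
  by_cases hp : p.Prime
  · by_cases hP : p ∈ P
    · by_cases h : GoodReduction c p
      · simp [hp, hP, h, hg.1 h]
      · have h3 : ¬ Good2 p (red p c) := fun h4 => h (hg.2 h4)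
        simp [hp, hP, h, h3]
    · simp [hP]
  · have h3 : ¬ GoodReduction c p := fun h => hp h.2.1
    simp [hp, h3]

/-- **One test function.** -/
theorem quench1 (f : (Fin r → ℝ) →ᵇ ℝ) (P : Set ℕ) (hP : ManyPrimes P) {ε η : ℝ} (hε : 0 < ε)
    (hη : 0 < η) : ∃ N : ℕ, ∀ m d : ℕ, 1 ≤ m → Even d → N ≤ d → ∃ T₀ : ℕ, ∀ H : ℕ,
      ({c : Mon (2 * m) d → ℤ | (∀ μ, |c μ| ≤ H) ∧ ∃ T : ℕ, T₀ ≤ T ∧ 8 * T ^ 4 ≤ H ∧
        ε < |∫ x, f x ∂(empirical r P c T : Measure (Fin r → ℝ)) -
          ∫ x, f x ∂(limitLaw r)|}.ncard : ℝ) ≤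
        η * (2 * H + 1 : ℝ) ^ Fintype.card (Mon (2 * m) d) := by
  classical
  obtain ⟨δ, hδ, T₁, hT₁⟩ := hP
  set I : ℝ := ∫ x, f x ∂(limitLaw r) with hI
  obtain ⟨F, hF1, hF⟩ : ∃ F : ℝ, 1 ≤ F ∧ ∀ x, |f x - I| ≤ F := by
    refine ⟨‖f‖ + |I| + 1, by have := norm_nonneg f; have := abs_nonneg I; linarith, fun x => ?_⟩
    have h1 := f.norm_coe_le_norm x
    rw [Real.norm_eq_abs] at h1
    have h2 := abs_sub (f x) I
    linarith
  set e' : ℝ := min ε 1 / 8 with he'
  have he'0 : 0 < e' := by positivity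
  have he'1 : e' ≤ ε / 8 := by
    rw [he']
    have := min_le_left ε 1
    linarith
  have he'2 : e' ≤ 1 / 8 := by
    rw [he']
    have := min_le_right ε 1
    linarith
  obtain ⟨N, hN⟩ := unif f (show 0 < e' / 2 by positivity)
  refine ⟨max N 1, fun m d hm he hd => ?_⟩
  have hdN : N ≤ d := (le_max_left _ _).trans hd
  have hd1 : 1 ≤ d := (le_max_right _ _).trans hd
  obtain ⟨N2, hN2⟩ := hN m d hm hdN
  set C0 : ℝ := ((Delta (2 * m) d).totalDegree + d : ℝ) with hC0
  have hC00 : 0 ≤ C0 := by positivity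
  set p1 : ℕ := max (max N2 3) (⌈2 * F * C0 / e'⌉₊ + 1) with hp1
  have hp1' : ∀ p : ℕ, p1 ≤ p → F * (C0 / p) ≤ e' / 2 := by
    intro p hp
    have h1 : 2 * F * C0 / e' ≤ p := by
      refine (Nat.le_ceil _).trans ?_
      have : ⌈2 * F * C0 / e'⌉₊ + 1 ≤ p := (le_max_right _ _).trans hp
      exact_mod_cast (by omega : ⌈2 * F * C0 / e'⌉₊ ≤ p)
    have hp0 : (0 : ℝ) < p := by
      have : ⌈2 * F * C0 / e'⌉₊ + 1 ≤ p := (le_max_right _ _).trans hp
      exact_mod_cast (by omega : 0 < p)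
    rw [div_le_iff₀ he'0] at h1
    rw [← mul_div_assoc, div_le_iff₀ hp0]
    linarith
  obtain ⟨C, hC0', hC⟩ := bdd (XX (m := m) (d := d) (fun x => f x) I P) F
    (fun b p c => XX_abs _ I F hF1 hF P b p c) (by linarith)
  set R : ℝ := C / η + 1 with hR
  have hR0 : 0 < R := by positivity
  -- the length
  have hlim := (lim_sqrt (√R + F * p1)).eventually
    (gt_mem_nhds (show 0 < e' * δ by positivity))
  obtain ⟨T₂, hT₂⟩ := Filter.eventually_atTop.1 hlim
  refine ⟨max (max T₁ T₂) 3, fun H => ?_⟩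
  obtain ⟨Φ, hΦ0, hΦ1, hΦ2⟩ := hC H
  refine (markov H Φ hΦ0 hΦ1 hR0 _ ?_).trans ?_
  · rintro c ⟨T, hT, hTH, hlt⟩
    by_contra hΦc
    push Not at hΦc
    have hT1 : T₁ ≤ T := (le_max_left _ _).trans ((le_max_left _ _).trans hT)
    have hT2 : T₂ ≤ T := (le_max_right _ _).trans ((le_max_left _ _).trans hT)
    have hT3 : 3 ≤ T := (le_max_right _ _).trans hT
    have hT0 : (0 : ℝ) < T := by exact_mod_cast (by omega : 0 < T)
    have hT3' : (3 : ℝ) ≤ T := by exact_mod_cast hT3
    have hlog : 1 ≤ Real.log T := by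
      rw [Real.le_log_iff_exp_le hT0]
      have := Real.exp_one_lt_d9
      linarith
    have hs1 : 1 ≤ √(T : ℝ) := Real.one_le_sqrt.2 (by linarith)
    set L := Real.log T with hL
    have hN1 := hT₁ T hT1
    have hNP : δ * T ≤ NP P T * L := hN1
    have hNP0 : 0 < NP P T := by
      by_contra hneg
      push Not at hneg
      have : NP P T * L ≤ 0 := mul_nonpos_of_nonpos_of_nonneg hneg (by linarith)
      have : 0 < δ * T := by positivity
      linarith
    have hsmall := hT₂ T hT2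
    rw [div_lt_iff₀ hT0] at hsmall
    -- the main bound
    have hmain : (√R + F * p1) * (√(T : ℝ) * L ^ 2) ≤ e' * NP P T := by
      have h1 : (√R + F * p1) * (√(T : ℝ) * L ^ 2) * L ≤ e' * NP P T * L := by
        calc (√R + F * p1) * (√(T : ℝ) * L ^ 2) * L = (√R + F * p1) * (√(T : ℝ) * L ^ 3) := by ring
          _ ≤ e' * δ * T := hsmall.le
          _ = e' * (δ * T) := by ring
          _ ≤ e' * (NP P T * L) := mul_le_mul_of_nonneg_left hNP he'0.le
          _ = _ := by ring
      exact le_of_mul_le_mul_right h1 (by linarith)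
    have hB1 : 1 ≤ √(T : ℝ) * L ^ 2 := by
      have : 1 ≤ L ^ 2 := one_le_pow₀ hlog
      nlinarith
    have hF0 : 0 ≤ F := by linarith
    have hsR : 0 ≤ √R := Real.sqrt_nonneg _
    have hFp : 0 ≤ F * p1 := by positivity
    have hmain2 : √R * (√(T : ℝ) * L ^ 2) + F * p1 ≤ e' * NP P T := by
      refine le_trans ?_ hmain
      rw [add_mul]
      have : F * p1 * 1 ≤ F * p1 * (√(T : ℝ) * L ^ 2) := mul_le_mul_of_nonneg_left hB1 hFp
      linarith
    -- the fluctuations
    have hfl : ∀ b : Bool, |∑ p ∈ (range T).filter Nat.Prime,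
        (XX (m := m) (d := d) (fun x => f x) I P b p (red p c) -
          avg (XX (m := m) (d := d) (fun x => f x) I P b) p)| ≤ √R * (√(T : ℝ) * L ^ 2) := by
      intro b
      have h1 := hΦ2 c b T (by omega) hTH
      refine abs_le_of_sq_le_sq (h1.trans ?_) (by positivity)
      rw [mul_pow, mul_pow, Real.sq_sqrt hR0.le, Real.sq_sqrt hT0.le]
      calc (T : ℝ) * L ^ 4 * Φ c ≤ T * L ^ 4 * R := by gcongr
        _ = _ := by ring
    have havg1 : |∑ p ∈ (range T).filter Nat.Prime,
        avg (XX (m := m) (d := d) (fun x => f x) I P true) p| ≤ e' * NP P T + F * p1 := by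
      have e : XX (m := m) (d := d) (fun x => f x) I P true =
          AA (m := m) (d := d) (fun x => f x) I P := rfl
      rw [e]
      refine sum_small _ P e' F he'0.le hF0 p1 T (fun p hp hpP => ?_) (fun p hp => ?_)
        (fun p hp hpp => ?_)
      · haveI := Fact.mk hp
        rw [avg_eq]
        have e2 : (fun c : Mon (2 * m) d → ZMod p =>
            AA (m := m) (d := d) (fun x => f x) I P p c) = fun _ => 0 := by
          funext c
          unfold AA
          rw [dif_pos hp, if_neg (fun h => hpP h.1)]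
        rw [e2, EM_const']
      · exact avg_abs (fun p c => XX_abs (m := m) (d := d) (fun x => f x) I F hF1 hF P true p c)
          hF0 p
      · haveI := Fact.mk hp
        have h1 := avg_AA hd1 (fun x => f x) I F (e' / 2) hF P p
          (by have := (le_max_right _ _).trans ((le_max_left _ _).trans hpp); omega)
          (hN2 p ((le_max_left _ _).trans ((le_max_left _ _).trans hpp)))
        have h2 := hp1' p hpp
        linarith
    have havg2 : |∑ p ∈ (range T).filter Nat.Prime,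
        avg (XX (m := m) (d := d) (fun x => f x) I P false) p| ≤ e' * NP P T + F * p1 := by
      have e : XX (m := m) (d := d) (fun x => f x) I P false = BI (m := m) (d := d) P := rfl
      rw [e]
      refine sum_small _ P e' F he'0.le hF0 p1 T (fun p hp hpP => ?_) (fun p hp => ?_)
        (fun p hp hpp => ?_)
      · haveI := Fact.mk hp
        rw [avg_eq]
        have e2 : (fun c : Mon (2 * m) d → ZMod p => BI (m := m) (d := d) P p c) =
            fun _ => 0 := by
          funext c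
          unfold BI
          rw [if_neg (fun h => hpP h.1)]
        rw [e2, EM_const']
      · exact avg_abs (fun p c => XX_abs (m := m) (d := d) (fun x => f x) I F hF1 hF P false p c)
          hF0 p
      · haveI := Fact.mk hp
        have h1 := avg_BI (m := m) hd1 P p
          (by have := (le_max_right _ _).trans ((le_max_left _ _).trans hpp); omega)
        have h2 := hp1' p hpp
        have hp0 : (0 : ℝ) < p := by exact_mod_cast hp.pos
        have h3 : C0 / p ≤ F * (C0 / p) := le_mul_of_one_le_left (by positivity) hF1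
        linarith
    have key : ∀ b : Bool, |∑ p ∈ (range T).filter Nat.Prime,
        XX (m := m) (d := d) (fun x => f x) I P b p (red p c)| ≤ 2 * e' * NP P T := by
      intro b
      have h1 := hfl b
      rw [Finset.sum_sub_distrib] at h1
      have h2 : |∑ p ∈ (range T).filter Nat.Prime,
          avg (XX (m := m) (d := d) (fun x => f x) I P b) p| ≤ e' * NP P T + F * p1 := by
        cases b
        · exact havg2
        · exact havg1
      have h3 := abs_sub_abs_le_abs_sub (∑ p ∈ (range T).filter Nat.Prime,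
        XX (m := m) (d := d) (fun x => f x) I P b p (red p c))
        (∑ p ∈ (range T).filter Nat.Prime, avg (XX (m := m) (d := d) (fun x => f x) I P b) p)
      linarith
    have k1 := key true
    have k2 := key false
    have e1 : ∑ p ∈ (range T).filter Nat.Prime,
        XX (m := m) (d := d) (fun x => f x) I P true p (red p c) =
        ∑ p ∈ goodPrimes P c T, (f (fun k => trace c p ((k : ℕ) + 1)) - I) :=
      sum_AA he (fun x => f x) I P c T
    have e2 : ∑ p ∈ (range T).filter Nat.Prime,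
        XX (m := m) (d := d) (fun x => f x) I P false p (red p c) =
        NP P T - (goodPrimes P c T).card := sum_BI P c T
    rw [e1] at k1
    rw [e2] at k2
    have hG : 3 / 4 * NP P T ≤ ((goodPrimes P c T).card : ℝ) := by
      have h1 := (abs_le.1 k2).2
      have h2 : 2 * e' * NP P T ≤ 1 / 4 * NP P T := by
        have : 2 * e' ≤ 1 / 4 := by linarith
        exact mul_le_mul_of_nonneg_right this hNP0.le
      linarith
    have hG0 : (0 : ℝ) < ((goodPrimes P c T).card : ℝ) := by linarith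
    have hint : ∫ x, f x ∂(empirical r P c T : Measure (Fin r → ℝ)) - I =
        (∑ p ∈ goodPrimes P c T, (f (fun k => trace c p ((k : ℕ) + 1)) - I)) /
          (goodPrimes P c T).card := by
      unfold empirical
      rw [integral_emp, Finset.sum_sub_distrib, Finset.sum_const, nsmul_eq_mul, smul_eq_mul,
        sub_div, inv_mul_eq_div, mul_div_cancel_left₀ _ hG0.ne']
    rw [hint, abs_div, abs_of_pos hG0, lt_div_iff₀ hG0] at hlt
    have h5 : ε * (3 / 4 * NP P T) ≤ ε * ((goodPrimes P c T).card : ℝ) :=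
      mul_le_mul_of_nonneg_left hG hε.le
    have h6 : 2 * e' * NP P T ≤ 2 * (ε / 8) * NP P T := by gcongr
    have h7 : 0 < ε * NP P T := by positivity
    linarith
  · refine mul_le_mul_of_nonneg_right ?_ (by positivity)
    rw [div_le_iff₀ hR0, hR]
    have : η * (C / η + 1) = C + η := by field_simp
    rw [this]
    linarith

end

/-- **Equidistribution in the weak topology.** -/
theorem quench {r : ℕ} (P : Set ℕ) (hP : ManyPrimes P) (U : Set (FiniteMeasure (Fin r → ℝ)))
    (hU : U ∈ 𝓝 (limitMeasure r)) {η : ℝ} (hη : 0 < η) : ∃ N : ℕ, ∀ m d : ℕ, 1 ≤ m → Even d → N ≤ d →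
      ∃ T₀ : ℕ, ∀ H : ℕ,
      ({c : Mon (2 * m) d → ℤ | (∀ μ, |c μ| ≤ H) ∧ ∃ T : ℕ, T₀ ≤ T ∧ 8 * T ^ 4 ≤ H ∧
        empirical r P c T ∉ U}.ncard : ℝ) ≤
        η * (2 * H + 1 : ℝ) ^ Fintype.card (Mon (2 * m) d) := by
  classical
  obtain ⟨s, ε, hε, hs⟩ := nbhd (limitMeasure r) U hU
  have hη' : 0 < η / (s.card + 1) := by positivity
  choose N hN using fun f : (Fin r → ℝ) →ᵇ ℝ => quench1 f P hP hε hη'
  refine ⟨s.sup N, fun m d hm he hd => ?_⟩
  have h1 : ∀ f : s, ∃ T₀ : ℕ, ∀ H : ℕ,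
      ({c : Mon (2 * m) d → ℤ | (∀ μ, |c μ| ≤ H) ∧ ∃ T : ℕ, T₀ ≤ T ∧ 8 * T ^ 4 ≤ H ∧
        ε < |∫ x, f.1 x ∂(empirical r P c T : Measure (Fin r → ℝ)) -
          ∫ x, f.1 x ∂(limitLaw r)|}.ncard : ℝ) ≤
        η / (s.card + 1) * (2 * H + 1 : ℝ) ^ Fintype.card (Mon (2 * m) d) :=
    fun f => hN f.1 m d hm he ((Finset.le_sup f.2).trans hd)
  choose T₀ hT₀ using h1
  refine ⟨univ.sup T₀, fun H => ?_⟩
  set B := (2 * H + 1 : ℝ) ^ Fintype.card (Mon (2 * m) d) with hB
  have hB0 : 0 ≤ B := by positivity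
  have h2 : {c : Mon (2 * m) d → ℤ | (∀ μ, |c μ| ≤ H) ∧ ∃ T : ℕ, univ.sup T₀ ≤ T ∧
      8 * T ^ 4 ≤ H ∧ empirical r P c T ∉ U} ⊆ ⋃ f ∈ (univ : Finset s),
      {c : Mon (2 * m) d → ℤ | (∀ μ, |c μ| ≤ H) ∧ ∃ T : ℕ, T₀ f ≤ T ∧ 8 * T ^ 4 ≤ H ∧
        ε < |∫ x, f.1 x ∂(empirical r P c T : Measure (Fin r → ℝ)) -
          ∫ x, f.1 x ∂(limitLaw r)|} := by
    rintro c ⟨hc, T, hT, hTH, hU'⟩
    by_contra hcon
    apply hU'
    refine hs _ fun f hf => ?_
    by_contra hlt
    push Not at hlt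
    apply hcon
    rw [Set.mem_iUnion₂]
    exact ⟨⟨f, hf⟩, Finset.mem_univ _, hc, T, (Finset.le_sup (Finset.mem_univ _)).trans hT, hTH, hlt⟩
  have hfin : ∀ f : s, {c : Mon (2 * m) d → ℤ | (∀ μ, |c μ| ≤ H) ∧ ∃ T : ℕ, T₀ f ≤ T ∧
      8 * T ^ 4 ≤ H ∧ ε < |∫ x, f.1 x ∂(empirical r P c T : Measure (Fin r → ℝ)) -
          ∫ x, f.1 x ∂(limitLaw r)|}.Finite := by
    intro f
    refine Set.Finite.subset (Set.Finite.pi' fun _ => Set.finite_Icc (-(H : ℤ)) H) ?_
    rintro c ⟨hc, -⟩ μ
    exact abs_le.1 (hc μ)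
  have h3 := Set.ncard_le_ncard h2 (Set.Finite.biUnion (Finset.finite_toSet _) fun f _ => hfin f)
  have h4 := Finset.set_ncard_biUnion_le (univ : Finset s) fun f =>
    {c : Mon (2 * m) d → ℤ | (∀ μ, |c μ| ≤ H) ∧ ∃ T : ℕ, T₀ f ≤ T ∧ 8 * T ^ 4 ≤ H ∧
        ε < |∫ x, f.1 x ∂(empirical r P c T : Measure (Fin r → ℝ)) -
          ∫ x, f.1 x ∂(limitLaw r)|}
  have h5 : ((∑ f : s, {c : Mon (2 * m) d → ℤ | (∀ μ, |c μ| ≤ H) ∧ ∃ T : ℕ, T₀ f ≤ T ∧
      8 * T ^ 4 ≤ H ∧ ε < |∫ x, f.1 x ∂(empirical r P c T : Measure (Fin r → ℝ)) -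
          ∫ x, f.1 x ∂(limitLaw r)|}.ncard : ℕ) : ℝ) ≤ s.card * (η / (s.card + 1) * B) := by
    push_cast
    refine (Finset.sum_le_sum fun f _ => hT₀ f H).trans (le_of_eq ?_)
    rw [Finset.sum_const, nsmul_eq_mul, Finset.card_univ, Fintype.card_coe]
  have h6 : ({c : Mon (2 * m) d → ℤ | (∀ μ, |c μ| ≤ H) ∧ ∃ T : ℕ, univ.sup T₀ ≤ T ∧
      8 * T ^ 4 ≤ H ∧ empirical r P c T ∉ U}.ncard : ℝ) ≤ s.card * (η / (s.card + 1) * B) :=
    le_trans (by exact_mod_cast h3.trans h4) h5
  refine h6.trans ?_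
  have h7 : (s.card : ℝ) * (η / (s.card + 1)) ≤ η := by
    rw [← mul_div_assoc, div_le_iff₀ (by positivity)]
    nlinarith
  calc (s.card : ℝ) * (η / (s.card + 1) * B) = (s.card * (η / (s.card + 1))) * B := by ring
    _ ≤ η * B := mul_le_mul_of_nonneg_right h7 hB0


end Pool.Agent.K1H81.DE
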